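import Mathlib

set_option autoImplicit false

/-!
# A length-increasing multiplicative wqo that contains no finitely generated wqo

On the words over two letters let `x ≤ y` if `x` is a scattered subword of `y` and either `x` and `y`
have the same number of letters `a`, or `x` has at least two letters `a`.
-/

namespace Pool.Agent.Results.MP_577ba1_lc.NoFiniteSystem

/-- Every infinite sequence has an element below a later one. -/
def Wqo {A : Type} (le : List A → List A → Prop) : Prop :=
  ∀ x : ℕ → List A, ∃ i j, i < j ∧ le (x i) (x j)

/-- `le` is a quasi-order, multiplicative and length-increasing. -/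
structure LengthIncreasingMultiplicative {A : Type} (le : List A → List A → Prop) : Prop where
  refl : ∀ x, le x x
  trans : ∀ x y z, le x y → le y z → le x z
  mult : ∀ u v x y, le x y → le (u ++ x ++ v) (u ++ y ++ v)
  len : ∀ x y, le x y → x.length ≤ y.length

/-- One step of the production system `P`. -/
def Step {A : Type} (P : Set (List A × List A)) (x y : List A) : Prop :=
  ∃ s t u v, (u, v) ∈ P ∧ x = s ++ u ++ t ∧ y = s ++ v ++ t

/-- The derivation relation of `P`. -/
def Derives {A : Type} (P : Set (List A × List A)) : List A → List A → Prop :=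
  Relation.ReflTransGen (Step P)

/-- The order; the letter `a` is `true`. -/
def le (x y : List Bool) : Prop :=
  x.Sublist y ∧ (x.count true = y.count true ∨ 2 ≤ x.count true)

theorem le_lim : LengthIncreasingMultiplicative le where
  refl x := ⟨List.Sublist.refl x, Or.inl rfl⟩
  trans x y z := by
    rintro ⟨h1, h2⟩ ⟨h3, h4⟩
    refine ⟨h1.trans h3, ?_⟩
    omega
  mult u v x y := by
    rintro ⟨h1, h2⟩
    refine ⟨(((List.Sublist.refl u).append h1).append (List.Sublist.refl v)), ?_⟩
    simp only [List.count_append]
    omega
  len x y h := h.1.length_le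

theorem le_wqo : Wqo le := by
  intro x
  have h1 : (Set.univ : Set (List Bool)).PartiallyWellOrderedOn (fun u v => u.Sublist v) := by
    have h := Set.PartiallyWellOrderedOn.partiallyWellOrderedOn_sublistForall₂ (α := Bool) (· = ·)
      (s := Set.univ) (Set.toFinite _).partiallyWellOrderedOn
    intro f
    obtain ⟨m, n, hmn, hr⟩ := h fun k => ⟨(f k).1, fun _ _ => Set.mem_univ _⟩
    refine ⟨m, n, hmn, ?_⟩
    obtain ⟨l, hl1, hl2⟩ := List.sublistForall₂_iff.1 hr
    rw [List.forall₂_eq_eq_eq] at hl1
    have e : (f m).1 = l := hl1
    change (f m).1.Sublist (f n).1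
    rw [e]
    exact hl2
  have h2 : (Set.univ : Set (Fin 3)).PartiallyWellOrderedOn (fun u v => u = v) :=
    (Set.toFinite _).partiallyWellOrderedOn
  have : IsPreorder (List Bool) (fun u v => u.Sublist v) :=
    { refl := fun u => List.Sublist.refl u
      trans := fun u v w h h' => h.trans h' }
  have h3 := h1.prod h2
  obtain ⟨m, n, hmn, hr⟩ := h3 fun k =>
    ⟨(x k, (⟨min ((x k).count true) 2, by omega⟩ : Fin 3)), by simp⟩
  refine ⟨m, n, hmn, hr.1, ?_⟩
  have h4 : min ((x m).count true) 2 = min ((x n).count true) 2 := by
    have := hr.2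
    simpa using congrArg Fin.val this
  omega

/-- The letters `a` of `x` are separated by at least `n` letters. -/
def Sparse (n : ℕ) (x : List Bool) : Prop :=
  ∀ p q r, x = p ++ true :: (q ++ true :: r) → n ≤ q.length

/-- A subword with the same number of letters `a` keeps each of them. -/
theorem split_of_sublist {x y : List Bool} (h : x.Sublist y)
    (hc : x.count true = y.count true) :
    ∀ p r, y = p ++ true :: r → ∃ p' r', x = p' ++ true :: r' ∧ p'.Sublist p ∧ r'.Sublist r ∧
      p'.count true = p.count true ∧ r'.count true = r.count true := by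
  intro p r hy
  subst hy
  obtain ⟨x1, x2, rfl, h1, h2⟩ := List.sublist_append_iff.1 h
  have c1 := h1.count_le true
  have c2 := h2.count_le true
  have c3 : (true :: r).count true = r.count true + 1 := by simp
  rw [List.count_append, List.count_append] at hc
  cases h2 with
  | cons _ h3 =>
    have c4 := h3.count_le true
    omega
  | cons_cons _ h3 =>
    rename_i x2'
    have c5 : (true :: x2').count true = x2'.count true + 1 := by simp
    refine ⟨x1, x2', rfl, h1, h3, ?_, ?_⟩ <;> omega

theorem sparse_mono {n : ℕ} {x y : List Bool} (h : x.Sublist y)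
    (hc : x.count true = y.count true) (hx : Sparse n x) : Sparse n y := by
  intro p q r hy
  obtain ⟨p', r', h1, -, h3, -, h5⟩ := split_of_sublist h hc p _ hy
  obtain ⟨p'', r'', h6, h7, -, -, -⟩ := split_of_sublist h3 h5 q r rfl
  have h8 := hx p' p'' r'' (by rw [h1, h6])
  exact h8.trans h7.length_le

/-- A short factor of a sparse word has at most one letter `a`. -/
theorem count_le_one {n : ℕ} {s u t : List Bool} (h : Sparse n (s ++ u ++ t))
    (hu : u.length ≤ n) : u.count true ≤ 1 := by
  by_contra hcon
  have h1 : true ∈ u := List.count_pos_iff.1 (by omega)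
  obtain ⟨p, r, rfl⟩ := List.append_of_mem h1
  have c1 : (true :: r).count true = r.count true + 1 := by simp
  rw [List.count_append, c1] at hcon
  by_cases hr : 0 < r.count true
  · obtain ⟨q, r', rfl⟩ := List.append_of_mem (List.count_pos_iff.1 hr)
    have h2 := h (s ++ p) q (r' ++ t) (by simp)
    simp only [List.length_append, List.length_cons] at hu
    omega
  · obtain ⟨p', q, rfl⟩ := List.append_of_mem (List.count_pos_iff.1 (by omega : 0 < p.count true))
    have h2 := h (s ++ p') q (r ++ t) (by simp)
    simp only [List.length_append, List.length_cons] at hu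
    omega

theorem derives_count {n : ℕ} {P : Set (List Bool × List Bool)}
    (hP : ∀ r ∈ P, le r.1 r.2 ∧ r.2.length ≤ n) {x y : List Bool} (h : Derives P x y)
    (hx : Sparse n x) : Sparse n y ∧ y.count true = x.count true := by
  induction h with
  | refl => exact ⟨hx, rfl⟩
  | tail _ hstep ih =>
    obtain ⟨ih1, ih2⟩ := ih
    obtain ⟨s, t, u, v, hr, rfl, rfl⟩ := hstep
    obtain ⟨⟨h1, h2⟩, h3⟩ := hP _ hr
    have h4 := count_le_one ih1 (h1.length_le.trans h3)
    have h5 : u.count true = v.count true := by
      change u.count true = v.count true ∨ 2 ≤ u.count true at h2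
      omega
    have h6 : (s ++ u ++ t).count true = (s ++ v ++ t).count true := by
      simp only [List.count_append, h5]
    exact ⟨sparse_mono (((List.Sublist.refl s).append h1).append (List.Sublist.refl t)) h6 ih1,
      h6 ▸ ih2⟩

/-- The word `(a b ^ n) ^ k`. -/
def wd (n : ℕ) : ℕ → List Bool
  | 0 => []
  | k + 1 => true :: (List.replicate n false ++ wd n k)

theorem wd_count (n k : ℕ) : (wd n k).count true = k := by
  induction k with
  | zero => rfl
  | succ k ih => simp [wd, ih, List.count_replicate]

theorem prefix_false {n : ℕ} {x q r : List Bool}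
    (h : List.replicate n false ++ x = q ++ true :: r) :
    ∃ q', q = List.replicate n false ++ q' ∧ x = q' ++ true :: r := by
  induction n generalizing q with
  | zero => exact ⟨q, by simp, by simpa using h⟩
  | succ n ih =>
    rw [List.replicate_succ] at h
    cases q with
    | nil => simp at h
    | cons c q =>
      simp only [List.cons_append, List.cons.injEq] at h
      obtain ⟨rfl, h⟩ := h
      obtain ⟨q', rfl, h'⟩ := ih h
      exact ⟨q', by simp [List.replicate_succ], h'⟩

theorem wd_sparse (n k : ℕ) : Sparse n (wd n k) := by
  induction k with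
  | zero =>
    intro p q r h
    simp [wd] at h
  | succ k ih =>
    intro p q r h
    rw [wd] at h
    cases p with
    | nil =>
      simp only [List.nil_append, List.cons.injEq, true_and] at h
      obtain ⟨q', rfl, -⟩ := prefix_false h
      simp
    | cons c p =>
      simp only [List.cons_append, List.cons.injEq] at h
      obtain ⟨p', rfl, h'⟩ := prefix_false h.2
      exact ih _ _ _ h'

/-- There is a length-increasing multiplicative well-quasi-order on the words over a two-letter
alphabet that contains no well-quasi-order generated by a finite production system. -/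
theorem result :
    ∃ le : List Bool → List Bool → Prop, LengthIncreasingMultiplicative le ∧ Wqo le ∧
      ∀ P : Set (List Bool × List Bool), P.Finite →
        (∀ r ∈ P, r.1 ≠ [] ∧ r.2 ≠ [] ∧ le r.1 r.2) → ¬ Wqo (Derives P) := by
  refine ⟨le, le_lim, le_wqo, fun P hfin hP hw => ?_⟩
  obtain ⟨n, hn⟩ : ∃ n, ∀ r ∈ P, r.2.length ≤ n := by
    obtain ⟨n, hn⟩ := (hfin.image fun r => r.2.length).bddAbove
    exact ⟨n, fun r hr => hn ⟨r, hr, rfl⟩⟩
  obtain ⟨i, j, hij, hd⟩ := hw (wd n)
  have h1 := (derives_count (fun r hr => ⟨(hP r hr).2.2, hn r hr⟩) hd (wd_sparse n i)).2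
  rw [wd_count, wd_count] at h1
  omega

end Pool.Agent.Results.MP_577ba1_lc.NoFiniteSystem
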